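import Mathlib
import Pool.Agent.V1176.PJ

set_option autoImplicit false

open Polynomial Pool.Agent.V1176 Pool.Agent.V1176.PJ

namespace Pool.Agent.Results.MP_5f9057_an.InfiniteCollection

/-- A real quadratic with negative discriminant is not real-rooted. -/
theorem not_RR_quadratic {a b c : ℝ} (ha : a ≠ 0) (hd : b ^ 2 - 4 * a * c < 0) :
    ¬ RR (C a * X ^ 2 + C b * X + C c) := by
  intro h
  have hne : (C a * X ^ 2 + C b * X + C c : ℝ[X]) ≠ 0 := by
    intro h0
    have := natDegree_quadratic (b := b) (c := c) ha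
    rw [h0] at this
    simp at this
  obtain ⟨z, hz⟩ := IsAlgClosed.exists_aeval_eq_zero ℂ (C a * X ^ 2 + C b * X + C c : ℝ[X]) (by
    rw [degree_quadratic ha]; norm_num)
  have him : z.im = 0 := by
    rcases h with h | h
    · exact absurd h hne
    · exact h z hz
  have hre : z = (z.re : ℂ) := Complex.ext (by simp) (by simp [him])
  rw [hre] at hz
  simp at hz
  have hz' : a * z.re ^ 2 + b * z.re + c = 0 := by exact_mod_cast hz
  have : (2 * a * z.re + b) ^ 2 = b ^ 2 - 4 * a * c := by
    have h4 : (2 * a * z.re + b) ^ 2 = 4 * a * (a * z.re ^ 2 + b * z.re + c) + b ^ 2 - 4 * a * c := by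
      ring
    rw [h4, hz']; ring
  nlinarith [sq_nonneg (2 * a * z.re + b)]

/-- The geometric sequence `2^k` is a classical multiplier sequence. -/
theorem geom_mem : (fun k : ℕ => (2 : ℝ) ^ k) ∈ MS std := by
  intro n a hf
  have heq : ∑ k ∈ Finset.range (n + 1), C (a k * (2 : ℝ) ^ k) * std k =
      (∑ k ∈ Finset.range (n + 1), C (a k) * std k).comp (C 2 * X) := by
    rw [← Polynomial.coe_compRingHom_apply, map_sum]
    apply Finset.sum_congr rfl
    intro k _
    simp [std, mul_pow]
    ring
  rw [heq]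
  rcases hf with h | h
  · left; rw [h]; simp
  · right
    intro z hz
    rw [aeval_comp] at hz
    have := h _ hz
    simpa using this

/-- The geometric sequence `2^k` is not a multiplier sequence for any `P_j`, `j ≥ 1`. -/
theorem geom_not_mem {j : ℕ} (hj : 1 ≤ j) : (fun k : ℕ => (2 : ℝ) ^ k) ∉ MS (P j) := by
  intro hmem
  rcases Nat.lt_or_ge 1 j with hj2 | hj1
  · -- `x^2 = q_2 - q_1`
    have h0 : P j 0 = 1 := by rw [P_of_le (by omega)]; simp
    have h1 : P j 1 = 1 + X := by
      rw [P_of_le hj]; simp [Finset.sum_range_succ]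
    have h2 : P j 2 = 1 + X + X ^ 2 := by
      rw [P_of_le (by omega)]; simp [Finset.sum_range_succ]
    let a : ℕ → ℝ := fun k => if k = 2 then 1 else if k = 1 then -1 else 0
    have hf : RR (∑ k ∈ Finset.range (2 + 1), C (a k) * P j k) := by
      have : ∑ k ∈ Finset.range (2 + 1), C (a k) * P j k = C 1 * X ^ 2 := by
        simp only [Finset.sum_range_succ, Finset.sum_range_zero, h0, h1, h2]
        simp [a]
        ring
      rw [this]
      exact RR_monomial _ _
    have hT := hmem 2 a hf
    have heq : ∑ k ∈ Finset.range (2 + 1), C (a k * (fun k : ℕ => (2 : ℝ) ^ k) k) * P j k =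
        C 4 * X ^ 2 + C 2 * X + C 2 := by
      simp only [Finset.sum_range_succ, Finset.sum_range_zero, h0, h1, h2]
      simp [a]
      have e4 : (C (2 : ℝ) ^ 2 : ℝ[X]) = C 4 := by rw [← C_pow]; norm_num
      have e4' : (C (4 : ℝ) : ℝ[X]) = 2 * C 2 := by
        rw [show (4 : ℝ) = 2 * 2 by norm_num, C_mul]; rfl
      rw [e4, e4']
      ring
    rw [heq] at hT
    exact not_RR_quadratic (by norm_num) (by norm_num) hT
  · -- `j = 1`
    have hj' : j = 1 := by omega
    subst hj'
    have h0 : P 1 0 = 1 := by rw [P_of_le (by omega)]; simp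
    have h1 : P 1 1 = 1 + X := by
      rw [P_of_le hj]; simp [Finset.sum_range_succ]
    have h2 : P 1 2 = X ^ 2 := by
      rw [P_of_lt (by omega)]
    let a : ℕ → ℝ := fun k => if k = 2 then 1 else if k = 1 then 2 else if k = 0 then -1 else 0
    have hf : RR (∑ k ∈ Finset.range (2 + 1), C (a k) * P 1 k) := by
      have : ∑ k ∈ Finset.range (2 + 1), C (a k) * P 1 k = (X + 1) ^ 2 := by
        simp only [Finset.sum_range_succ, Finset.sum_range_zero, h0, h1, h2]
        simp [a]
        have e2 : (C (2 : ℝ) : ℝ[X]) = 2 := rfl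
        rw [e2]
        ring
      rw [this]
      right
      intro z hz
      simp at hz
      have : z = -1 := by linear_combination hz
      simp [this]
    have hT := hmem 2 a hf
    have heq : ∑ k ∈ Finset.range (2 + 1), C (a k * (fun k : ℕ => (2 : ℝ) ^ k) k) * P 1 k =
        C 4 * X ^ 2 + C 4 * X + C 3 := by
      simp only [Finset.sum_range_succ, Finset.sum_range_zero, h0, h1, h2]
      simp [a]
      have e4 : (C (4 : ℝ) : ℝ[X]) = 4 := rfl
      have e2 : (C (2 : ℝ) : ℝ[X]) = 2 := rfl
      have e3 : (C (3 : ℝ) : ℝ[X]) = 3 := rfl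
      rw [e2, e4, e3]
      ring
    rw [heq] at hT
    exact not_RR_quadratic (by norm_num) (by norm_num) hT

/-- There is an infinite collection of simple sets as asked for in Q1. -/
theorem result : ∃ Q : ℕ → ℕ → ℝ[X], (∀ j, IsSimpleSet (Q j)) ∧
    (∀ i j, i ≠ j → (symmDiff (MS (Q i)) (MS (Q j))).Nonempty) ∧
    (⋃ j, MS (Q j)) ⊂ MS std := by
  refine ⟨fun j => P (j + 1), fun j => isSimpleSet_P _, ?_, ?_⟩
  · intro i j hij
    rw [Set.nonempty_iff_ne_empty, Ne, ← Set.bot_eq_empty, symmDiff_eq_bot]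
    exact MS_P_injective (by omega) (by omega) (by omega)
  · rw [Set.ssubset_iff_subset_ne]
    refine ⟨Set.iUnion_subset fun j => MS_P_subset _, fun h => ?_⟩
    have h1 := h.symm ▸ geom_mem
    obtain ⟨j, hj⟩ := Set.mem_iUnion.mp h1
    exact geom_not_mem (by omega) hj

end Pool.Agent.Results.MP_5f9057_an.InfiniteCollection
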