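import Mathlib
import Pool.Agent.V1176.PJ

set_option autoImplicit false

open Polynomial Pool.Agent.V1176 Pool.Agent.V1176.PJ

namespace Pool.Agent.Results.MP_5f9057_an.PjDistinct

/-- The sets of `P_j`-multiplier sequences, `j ≥ 1`, are pairwise different. -/
theorem result : ∀ i j : ℕ, 1 ≤ i → 1 ≤ j → i ≠ j → MS (P i) ≠ MS (P j) :=
  fun _ _ hi hj hij => MS_P_injective hi hj hij

end Pool.Agent.Results.MP_5f9057_an.PjDistinct
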